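import Mathlib
import Pool.Agent.H435R3.Paley.All
import Pool.Agent.H435R3.Paley.Avg

/-!
# The Paley graph conjecture holds for all dilations but `p ^ (1/2 + ε)`

For all sets `A`, `B` of size at least `p ^ ε`, every nontrivial character `χ` and every shift `s`
the bound `|∑ χ (a + s + t b)| ≤ p ^ (-δ) |A| |B|` holds for all dilations `t ≠ 0` but at most
`p ^ (1/2 + ε)`.
-/

set_option autoImplicit false

open Finset

namespace Pool.Agent.Results.MP_f6e9a2_nt.Dilations

/-- **Almost all dilations.** For every `ε > 0` there are `δ > 0` and `p₀` such that for every prime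
`p ≥ p₀`, every nontrivial multiplicative character `χ` modulo `p`, all sets `A`, `B` of at least
`p ^ ε` residue classes and every shift `s`, the double sum of `χ (a + (s + t b))` is larger than
`p ^ (-δ) |A| |B|` for at most `p ^ (1/2 + ε)` of the dilations `t ≠ 0`. -/
theorem result (ε : ℝ) (hε : 0 < ε) : ∃ δ : ℝ, 0 < δ ∧ ∃ p₀ : ℕ, ∀ p : ℕ, p.Prime → p₀ ≤ p →
    ∀ χ : DirichletCharacter ℂ p, χ ≠ 1 → ∀ A B : Finset (ZMod p),
      (p : ℝ) ^ ε ≤ A.card → (p : ℝ) ^ ε ≤ B.card → ∀ s : ZMod p,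
        ({t : ZMod p | t ≠ 0 ∧ (p : ℝ) ^ (-δ) * (A.card * B.card) <
          ‖∑ a ∈ A, ∑ b ∈ B, χ (a + (s + t * b))‖}.ncard : ℝ) ≤ (p : ℝ) ^ (1 / 2 + ε) := by
  classical
  obtain ⟨δ, hδ, h⟩ := Pool.Agent.H435R3.Paley.dilations ε hε
  obtain ⟨p₀, h⟩ := h (fun r => 2 * r) (fun r => by positivity)
  refine ⟨δ, hδ, p₀, fun p hp hp₀ χ hχ A B hA hB s => ?_⟩
  have : Fact p.Prime := ⟨hp⟩
  have hinj : Function.Injective fun a : ZMod p => a + s := add_left_injective s
  have hcard : (A.image fun a => a + s).card = A.card := card_image_of_injective A hinj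
  have h1 := h p hp₀ χ (Pool.Agent.H435R3.Paley.good_all p χ hχ) (A.image fun a => a + s) B
    (by rw [hcard]; exact hA) hB
  rw [hcard] at h1
  have h2 : ∀ t : ZMod p, Pool.Agent.H435R3.Paley.dsum χ (A.image fun a => a + s) B t =
      ∑ a ∈ A, ∑ b ∈ B, χ (a + (s + t * b)) := by
    intro t
    unfold Pool.Agent.H435R3.Paley.dsum
    rw [sum_image fun a _ b _ hab => hinj hab]
    simp only [add_assoc]
  simp only [h2] at h1
  refine le_trans (Nat.cast_le.mpr ?_) h1
  refine le_trans (Set.ncard_le_ncard (fun t ht => ?_) (Finset.finite_toSet _))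
    (le_of_eq (Set.ncard_coe_finset _))
  simpa using ht

end Pool.Agent.Results.MP_f6e9a2_nt.Dilations
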