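import Pool.Agent.Q213.FD.Paley

/-!
# The Paley graph conjecture for nearly all primes with one affine or fractional linear map

Let for every prime `p` arbitrary sets `U_p, V_p` of residues with at least `p ^ ε` elements and a
nontrivial character `χ_p` be given. The Paley graph conjecture asserts
`|∑ χ_p (a + b)| ≤ p ^ (- δ) |U_p| |V_p|`. We show: if the digits of two arbitrary integers `S, T` in base
`b` are changed at a few places, then for all but a proportion `y ^ (- A)` of the choices of the places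
the integers `s, t` obtained have the property that the bound holds for the sets `U_p` and `s + t V_p`
for all primes `p ≤ x` but at most `x ^ ε` of them, simultaneously for all integers `y ≤ x ≤ exp (c r)`
and for all members of a family of `x ^ A` systems of sets and characters. The same holds for the
fractional linear images `s + t / (V_p + u)` with three integers.

Proof.  For each prime the starting theorem `Y881.PG.affine_final` bounds the number of the exceptional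
affine maps by `p`, of the fractional linear maps by `p ^ 2`. So the density of the vectors of residues which are
bad modulo `p` is at most `2 / p`, and the law `TH894.NE.law3` for integers with a few changed digits
applies.
-/

set_option autoImplicit false

namespace Pool.Agent.Results.MP_f6e9a2_nt.FewDigitMaps

open Finset

/-- The bound of the Paley graph conjecture for the sets `U` and `g V`. -/
def PaleyBound {p : ℕ} (δ : ℝ) (χ : DirichletCharacter ℂ p) (U V : Finset (ZMod p))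
    (g : ZMod p → ZMod p) : Prop :=
  ‖∑ a ∈ U, ∑ b ∈ V, χ (a + g b)‖ ≤ (p : ℝ) ^ (-δ) * (U.card * V.card)

/-- The digit number `i` (counted from the right, beginning with `0`) of `n` in base `b`. -/
def digit (b i n : ℕ) : ℕ := n / b ^ i % b

/-- The number which arises from the number `N` with at most `K` digits in base `b`, if for every `i ∈ S`
the digit number `i` is replaced by `f i`. -/
def change (b K N : ℕ) (f : ℕ → ℕ) (S : Finset ℕ) : ℕ :=
  ∑ i ∈ range K, (if i ∈ S then f i else digit b i N) * b ^ i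

open Classical in
/-- The number of the choices of `r l` of `K l` positions for all `l < s` for which the vector of the numbers obtained by
changing the digits of the `N l` at the chosen positions (according to `f l`) does not have the property `E`. -/
noncomputable def exceptions {s : ℕ} (b : ℕ) (K r N : Fin s → ℕ) (f : Fin s → ℕ → ℕ) (E : (Fin s → ℕ) → Prop) : ℕ :=
  ((Fintype.piFinset (fun l => powersetCard (r l) (range (K l)))).filter
    (fun S => ¬ E (fun l => change b (K l) (N l) (f l) (S l)))).card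

open Classical in
/-- The number of the primes `p ≤ x` which divide `t` or for which the sets `U p`, `g p (V p)` violate the
bound. -/
noncomputable def failures (δ : ℝ) (χ : (p : ℕ) → DirichletCharacter ℂ p)
    (U V : (p : ℕ) → Finset (ZMod p)) (t : ℕ) (g : (p : ℕ) → ZMod p → ZMod p) (x : ℕ) : ℕ :=
  ((range (x + 1)).filter (fun p => p.Prime ∧
    (p ∣ t ∨ ¬ PaleyBound δ (χ p) (U p) (V p) (g p)))).card

/-- A system: for every prime a nontrivial character and two sets of at least `p ^ ε` residues. -/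
structure System (ε : ℝ) where
  χ : (p : ℕ) → DirichletCharacter ℂ p
  U : (p : ℕ) → Finset (ZMod p)
  V : (p : ℕ) → Finset (ZMod p)
  nontrivial : ∀ p : ℕ, p.Prime → χ p ≠ 1
  large : ∀ p : ℕ, p.Prime → (p : ℝ) ^ ε ≤ (U p).card ∧ (p : ℝ) ^ ε ≤ (V p).card

open Classical in
theorem failures_eq (δ : ℝ) (χ : (p : ℕ) → DirichletCharacter ℂ p)
    (U V : (p : ℕ) → Finset (ZMod p)) (t : ℕ) (g : (p : ℕ) → ZMod p → ZMod p) (x : ℕ)
    (Q : ℕ → Prop)
    (hQ : ∀ p : ℕ, Q p ↔ (p ∣ t ∨ ¬ PaleyBound δ (χ p) (U p) (V p) (g p))) :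
    failures δ χ U V t g x = ((Pool.Agent.Q213.FD.primes x).filter (fun p => Q p)).card := by
  unfold failures Pool.Agent.Q213.FD.primes
  rw [filter_filter]
  congr 1
  ext p
  rw [mem_filter, mem_filter]
  exact and_congr_right fun _ => and_congr_right fun _ => (hQ p).symm

theorem affine (b : ℕ) (hb : 2 ≤ b) (ε : ℝ) (hε : 0 < ε) (A : ℝ) :
    ∃ δ : ℝ, 0 < δ ∧ ∃ c : ℝ, 0 < c ∧ ∃ y₀ : ℕ,
    ∀ (K r : Fin 2 → ℕ) (y : ℕ), (∀ l, 2 * r l ≤ K l) → y₀ ≤ y →
    ∀ N : Fin 2 → ℕ, (∀ l, N l < b ^ K l) →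
    ∀ f : Fin 2 → ℕ → ℕ, (∀ l j, f l j < b ∧ f l j ≠ digit b j (N l)) →
    ∀ Λ : ℕ → Finset (System ε), (∀ x, y ≤ x → ((Λ x).card : ℝ) ≤ (x : ℝ) ^ A) →
      (exceptions b K r N f (fun m => ∀ x : ℕ, y ≤ x → (∀ l, (x : ℝ) ≤ Real.exp (c * r l)) →
        ∀ D ∈ Λ x, (failures δ D.χ D.U D.V (m 1)
          (fun p v => (m 0 : ZMod p) + (m 1 : ZMod p) * v) x : ℝ) ≤ (x : ℝ) ^ ε) : ℝ) ≤
        (y : ℝ) ^ (-A) * ∏ l, ((K l).choose (r l) : ℝ) := by
  classical
  obtain ⟨c₁, hc₁, δ, hδ, p₀, h1⟩ := Pool.Agent.Y881.PG.affine_final ε hε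
  obtain ⟨x₀, h2⟩ := Pool.Agent.Q213.FD.sum_dens (ε / 2) (by positivity) (p₀ + 1)
  obtain ⟨c, hc, y₀, h3⟩ := Pool.Agent.Q213.FD.law b 2 hb (by norm_num) A A (ε / 2) (by positivity)
  refine ⟨δ, hδ, c, hc, x₀ + y₀, fun K r y hrK hy N hN f hf Λ hΛ => ?_⟩
  have h4 := h3 K r y hrK (by omega) N hN f hf (System ε) Λ hΛ
    (fun D p m => p ∣ m 1 ∨ ¬ PaleyBound δ (D.χ p) (D.U p) (D.V p)
      (fun v => (m 0 : ZMod p) + (m 1 : ZMod p) * v)) ?_ (ε / 2) (by positivity) ?_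
  · refine le_trans (Nat.cast_le.2 (card_le_card ?_)) h4
    intro S hS
    have hS' := mem_filter.1 hS
    refine mem_filter.2 ⟨hS'.1, fun hcon => hS'.2 fun x hx hxr D hD => ?_⟩
    have h5 := hcon x hx hxr D hD
    have h6 : ε / 2 + ε / 2 = ε := by ring
    rw [h6] at h5
    refine le_trans (le_of_eq ?_) h5
    congr 1
    exact failures_eq _ _ _ _ _ _ _ _ fun p => Iff.rfl
  · intro D p m
    have e1 : p ∣ m 1 % p ↔ p ∣ m 1 := (Nat.dvd_mod_iff dvd_rfl)
    have e2 : ∀ i : Fin 2, ((m i % p : ℕ) : ZMod p) = (m i : ZMod p) := fun i => ZMod.natCast_mod _ _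
    simp only [e1, e2]
  · intro x hx D _
    refine h2 x (by omega) 2 _ fun p hp hpp => ?_
    haveI : Fact p.Prime := ⟨hp⟩
    have hp0 : (0 : ℝ) < p := by exact_mod_cast hp.pos
    have hp1 : (1 : ℝ) ≤ p := by exact_mod_cast hp.one_lt.le
    have h5 := h1 p (by omega) (D.χ p) (D.nontrivial p hp) (D.U p) (D.V p) (D.large p hp).1
      (D.large p hp).2
    refine Pool.Agent.Q213.FD.dens_le 2 1 _ p hp
      (φ := fun m => ((m 0 : ZMod p), (m 1 : ZMod p))) ?_ {g : ZMod p × ZMod p | g.2 ≠ 0 ∧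
        (p : ℝ) ^ (-δ) * ((D.U p).card * (D.V p).card) <
          ‖∑ a ∈ D.U p, ∑ b ∈ D.V p, D.χ p (a + (g.1 + g.2 * b))‖} (Set.toFinite _) ?_ ?_
    · intro m hm m' hm' h
      rw [Fintype.mem_piFinset] at hm hm'
      simp only [Prod.mk.injEq] at h
      have e1 : ∀ i : Fin 2, (m i : ZMod p) = (m' i : ZMod p) → m i = m' i := by
        intro i hi
        rw [ZMod.natCast_eq_natCast_iff] at hi
        exact Nat.ModEq.eq_of_lt_of_lt hi (mem_range.1 (hm i)) (mem_range.1 (hm' i))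
      funext i
      fin_cases i
      · exact e1 0 h.1
      · exact e1 1 h.2
    · refine (h5.trans (min_le_left _ _)).trans ?_
      calc (p : ℝ) ^ (1 - c₁) ≤ (p : ℝ) ^ (1 : ℝ) :=
            Real.rpow_le_rpow_of_exponent_le hp1 (by linarith)
        _ = (p : ℝ) ^ (2 - 1) := by norm_num
    · intro m hm
      rcases hm with hm | hm
      · exact Or.inl hm
      · by_cases hd : p ∣ m 1
        · exact Or.inl hd
        · refine Or.inr ⟨fun h => hd ((ZMod.natCast_eq_zero_iff _ _).1 h), ?_⟩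
          exact not_le.1 hm

theorem fractional (b : ℕ) (hb : 2 ≤ b) (ε : ℝ) (hε : 0 < ε) (A : ℝ) :
    ∃ δ : ℝ, 0 < δ ∧ ∃ c : ℝ, 0 < c ∧ ∃ y₀ : ℕ,
    ∀ (K r : Fin 3 → ℕ) (y : ℕ), (∀ l, 2 * r l ≤ K l) → y₀ ≤ y →
    ∀ N : Fin 3 → ℕ, (∀ l, N l < b ^ K l) →
    ∀ f : Fin 3 → ℕ → ℕ, (∀ l j, f l j < b ∧ f l j ≠ digit b j (N l)) →
    ∀ Λ : ℕ → Finset (System ε), (∀ x, y ≤ x → ((Λ x).card : ℝ) ≤ (x : ℝ) ^ A) →
      (exceptions b K r N f (fun m => ∀ x : ℕ, y ≤ x → (∀ l, (x : ℝ) ≤ Real.exp (c * r l)) →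
        ∀ D ∈ Λ x, (failures δ D.χ D.U D.V (m 1)
          (fun p v => (m 0 : ZMod p) + (m 1 : ZMod p) * (v + (m 2 : ZMod p))⁻¹) x : ℝ) ≤
          (x : ℝ) ^ ε) : ℝ) ≤
        (y : ℝ) ^ (-A) * ∏ l, ((K l).choose (r l) : ℝ) := by
  classical
  obtain ⟨c₁, hc₁, δ, hδ, p₀, h1⟩ := Pool.Agent.Y881.PG.mobius_final ε hε
  obtain ⟨x₀, h2⟩ := Pool.Agent.Q213.FD.sum_dens (ε / 2) (by positivity) (p₀ + 1)
  obtain ⟨c, hc, y₀, h3⟩ := Pool.Agent.Q213.FD.law b 3 hb (by norm_num) A A (ε / 2) (by positivity)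
  refine ⟨δ, hδ, c, hc, x₀ + y₀, fun K r y hrK hy N hN f hf Λ hΛ => ?_⟩
  have h4 := h3 K r y hrK (by omega) N hN f hf (System ε) Λ hΛ
    (fun D p m => p ∣ m 1 ∨ ¬ PaleyBound δ (D.χ p) (D.U p) (D.V p)
      (fun v => (m 0 : ZMod p) + (m 1 : ZMod p) * (v + (m 2 : ZMod p))⁻¹)) ?_ (ε / 2)
    (by positivity) ?_
  · refine le_trans (Nat.cast_le.2 (card_le_card ?_)) h4
    intro S hS
    have hS' := mem_filter.1 hS
    refine mem_filter.2 ⟨hS'.1, fun hcon => hS'.2 fun x hx hxr D hD => ?_⟩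
    have h5 := hcon x hx hxr D hD
    have h6 : ε / 2 + ε / 2 = ε := by ring
    rw [h6] at h5
    refine le_trans (le_of_eq ?_) h5
    congr 1
    exact failures_eq _ _ _ _ _ _ _ _ fun p => Iff.rfl
  · intro D p m
    have e1 : p ∣ m 1 % p ↔ p ∣ m 1 := (Nat.dvd_mod_iff dvd_rfl)
    have e2 : ∀ i : Fin 3, ((m i % p : ℕ) : ZMod p) = (m i : ZMod p) := fun i => ZMod.natCast_mod _ _
    simp only [e1, e2]
  · intro x hx D _
    refine h2 x (by omega) 3 _ fun p hp hpp => ?_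
    haveI : Fact p.Prime := ⟨hp⟩
    have hp0 : (0 : ℝ) < p := by exact_mod_cast hp.pos
    have hp1 : (1 : ℝ) ≤ p := by exact_mod_cast hp.one_lt.le
    have h5 := h1 p (by omega) (D.χ p) (D.nontrivial p hp) (D.U p) (D.V p) (D.large p hp).1
      (D.large p hp).2
    refine Pool.Agent.Q213.FD.dens_le 3 1 _ p hp
      (φ := fun m => ((m 0 : ZMod p), (m 1 : ZMod p), (m 2 : ZMod p))) ?_
      {g : ZMod p × ZMod p × ZMod p | g.2.1 ≠ 0 ∧
        (p : ℝ) ^ (-δ) * ((D.U p).card * (D.V p).card) <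
          ‖∑ a ∈ D.U p, ∑ b ∈ D.V p, D.χ p (a + (g.1 + g.2.1 / (b + g.2.2)))‖} (Set.toFinite _) ?_ ?_
    · intro m hm m' hm' h
      rw [Fintype.mem_piFinset] at hm hm'
      simp only [Prod.mk.injEq] at h
      have e1 : ∀ i : Fin 3, (m i : ZMod p) = (m' i : ZMod p) → m i = m' i := by
        intro i hi
        rw [ZMod.natCast_eq_natCast_iff] at hi
        exact Nat.ModEq.eq_of_lt_of_lt hi (mem_range.1 (hm i)) (mem_range.1 (hm' i))
      funext i
      fin_cases i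
      · exact e1 0 h.1
      · exact e1 1 h.2.1
      · exact e1 2 h.2.2
    · refine (h5.trans (min_le_left _ _)).trans ?_
      calc (p : ℝ) ^ (3 / 2 - c₁) ≤ (p : ℝ) ^ (2 : ℝ) :=
            Real.rpow_le_rpow_of_exponent_le hp1 (by linarith)
        _ = (p : ℝ) ^ (3 - 1) := by norm_num
    · intro m hm
      rcases hm with hm | hm
      · exact Or.inl hm
      · by_cases hd : p ∣ m 1
        · exact Or.inl hd
        · refine Or.inr ⟨fun h => hd ((ZMod.natCast_eq_zero_iff _ _).1 h), ?_⟩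
          simp only [div_eq_mul_inv]
          exact not_le.1 hm

/-- **The Paley graph conjecture for nearly all primes with one map.** -/
theorem result (b : ℕ) (hb : 2 ≤ b) (ε : ℝ) (hε : 0 < ε) (A : ℝ) :
    (∃ δ : ℝ, 0 < δ ∧ ∃ c : ℝ, 0 < c ∧ ∃ y₀ : ℕ,
      ∀ (K r : Fin 2 → ℕ) (y : ℕ), (∀ l, 2 * r l ≤ K l) → y₀ ≤ y →
      ∀ N : Fin 2 → ℕ, (∀ l, N l < b ^ K l) →
      ∀ f : Fin 2 → ℕ → ℕ, (∀ l j, f l j < b ∧ f l j ≠ digit b j (N l)) →
      ∀ Λ : ℕ → Finset (System ε), (∀ x, y ≤ x → ((Λ x).card : ℝ) ≤ (x : ℝ) ^ A) →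
        (exceptions b K r N f (fun m => ∀ x : ℕ, y ≤ x → (∀ l, (x : ℝ) ≤ Real.exp (c * r l)) →
          ∀ D ∈ Λ x, (failures δ D.χ D.U D.V (m 1)
            (fun p v => (m 0 : ZMod p) + (m 1 : ZMod p) * v) x : ℝ) ≤ (x : ℝ) ^ ε) : ℝ) ≤
          (y : ℝ) ^ (-A) * ∏ l, ((K l).choose (r l) : ℝ)) ∧
    (∃ δ : ℝ, 0 < δ ∧ ∃ c : ℝ, 0 < c ∧ ∃ y₀ : ℕ,
      ∀ (K r : Fin 3 → ℕ) (y : ℕ), (∀ l, 2 * r l ≤ K l) → y₀ ≤ y →
      ∀ N : Fin 3 → ℕ, (∀ l, N l < b ^ K l) →
      ∀ f : Fin 3 → ℕ → ℕ, (∀ l j, f l j < b ∧ f l j ≠ digit b j (N l)) →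
      ∀ Λ : ℕ → Finset (System ε), (∀ x, y ≤ x → ((Λ x).card : ℝ) ≤ (x : ℝ) ^ A) →
        (exceptions b K r N f (fun m => ∀ x : ℕ, y ≤ x → (∀ l, (x : ℝ) ≤ Real.exp (c * r l)) →
          ∀ D ∈ Λ x, (failures δ D.χ D.U D.V (m 1)
            (fun p v => (m 0 : ZMod p) + (m 1 : ZMod p) * (v + (m 2 : ZMod p))⁻¹) x : ℝ) ≤
            (x : ℝ) ^ ε) : ℝ) ≤
          (y : ℝ) ^ (-A) * ∏ l, ((K l).choose (r l) : ℝ)) :=
  ⟨affine b hb ε hε A, fractional b hb ε hε A⟩

end Pool.Agent.Results.MP_f6e9a2_nt.FewDigitMaps
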