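import Pool.Agent.Q40.PS.One

/-!
# Double character sums: one set a union of pieces nearly invariant under arbitrary sets, the other set arbitrary

Let `D = ⊔ A i` be a disjoint union of any number of sets. Each piece grows by a factor at most `p ^ τ` when some set
`T i` with at least `p ^ ε` elements is added; the sets `T i` are arbitrary (no progressions, no condition on their
doubling) and may be different for different pieces. `B` is arbitrary. If for most pieces the points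
`(a + b, a + b')`, `(a, b, b') ∈ A i × B × B`, are not concentrated on `p ^ (1 + ε)` points of the plane, then the double
sum of `χ (a + b)` over all dense subsets of `D` and `B` has a power saving.

Proof. The second moment over `A i` of the sums over `B` is not larger than the one over `A i - t` of the shifted sums,
for each `t` in a subset of `- T i` with `p ^ κ` elements. After averaging over `t` one has sums over `t` of
`χ (a + b + t) conj χ (a + b' + t)`, which are small outside a set of `p ^ (1 + ε)` points `(a + b, a + b')` by the moment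
of order `2 k` over the plane (Weil's bound). This is the argument of the starting file `Pool.Agent.TH7.PG.OneSided` for
progressions, with arbitrary sets of shifts.
-/

set_option autoImplicit false

namespace Pool.Agent.Results.MP_f6e9a2_nt.OneSidedArbitraryShifts

open Finset
open scoped Pointwise

/-- `T` has at least `p ^ ε` elements and `|A + T| ≤ p ^ τ |A|` -/
structure NearlyInvariant (p : ℕ) (ε τ : ℝ) (A T : Finset (ZMod p)) : Prop where
  large : (p : ℝ) ^ ε ≤ T.card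
  invariant : ((A + T).card : ℝ) ≤ (p : ℝ) ^ τ * A.card

/-- No set of at most `p ^ (1 + ε)` points of the plane contains `(a + b, a + b')` for more than `p ^ (- ε) |A| |B| ^ 2` of
the triples `(a, b, b') ∈ A × B × B`. -/
def PlaneSpread (p : ℕ) (ε : ℝ) (A B : Finset (ZMod p)) : Prop :=
  ∀ X : Finset (ZMod p × ZMod p), (X.card : ℝ) ≤ (p : ℝ) ^ (1 + ε) →
    (((A ×ˢ (B ×ˢ B)).filter fun t => (t.1 + t.2.1, t.1 + t.2.2) ∈ X).card : ℝ) ≤
      (p : ℝ) ^ (-ε) * (A.card * (B.card : ℝ) ^ 2)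

/-- the number of pairs of triples of `A × B × B` with the same point `(a + b, a + b')` -/
def planeEnergy {p : ℕ} (A B : Finset (ZMod p)) : ℕ :=
  (((A ×ˢ (B ×ˢ B)) ×ˢ (A ×ˢ (B ×ˢ B))).filter fun s =>
    s.1.1 + s.1.2.1 = s.2.1 + s.2.2.1 ∧ s.1.1 + s.1.2.2 = s.2.1 + s.2.2.2).card

/-- small energy implies that the points are spread -/
theorem spread_of_energy {p : ℕ} (hp : 0 < p) (ε : ℝ) (A B : Finset (ZMod p))
    (hE : (planeEnergy A B : ℝ) ≤ (p : ℝ) ^ (-1 - 3 * ε) * (A.card * (B.card : ℝ) ^ 2) ^ 2) : PlaneSpread p ε A B := by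
  classical
  intro X hX
  have hp0 : (0 : ℝ) < p := by exact_mod_cast hp
  obtain ⟨S, hS⟩ : ∃ S : Finset (ZMod p × (ZMod p × ZMod p)), S = A ×ˢ (B ×ˢ B) := ⟨_, rfl⟩
  obtain ⟨φ, hφ⟩ : ∃ φ : ZMod p × (ZMod p × ZMod p) → ZMod p × ZMod p, φ = fun t => (t.1 + t.2.1, t.1 + t.2.2) := ⟨_, rfl⟩
  obtain ⟨r, hr⟩ : ∃ r : ZMod p × ZMod p → ℕ, r = fun x => (S.filter fun t => φ t = x).card := ⟨_, rfl⟩
  have h1 : (((A ×ˢ (B ×ˢ B)).filter fun t => (t.1 + t.2.1, t.1 + t.2.2) ∈ X).card : ℝ) = ∑ x ∈ X, (r x : ℝ) := by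
    have h2 : ((A ×ˢ (B ×ˢ B)).filter fun t => (t.1 + t.2.1, t.1 + t.2.2) ∈ X).card = ∑ x ∈ X, r x := by
      have h4 := Finset.card_eq_sum_card_fiberwise (s := (A ×ˢ (B ×ˢ B)).filter fun t => (t.1 + t.2.1, t.1 + t.2.2) ∈ X)
        (f := φ) (t := X) (fun t ht => by rw [hφ]; exact (mem_filter.1 (mem_coe.1 ht)).2)
      refine h4.trans (sum_congr rfl fun x hx => ?_)
      rw [hr, hS]
      congr 1
      ext t
      simp only [mem_filter]
      constructor
      · rintro ⟨⟨h3, _⟩, h4⟩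
        exact ⟨h3, h4⟩
      · rintro ⟨h3, h4⟩
        refine ⟨⟨h3, ?_⟩, h4⟩
        rw [hφ] at h4
        have h5 : (t.1 + t.2.1, t.1 + t.2.2) = x := h4
        rw [h5]
        exact hx
    rw [h2]
    push_cast
    rfl
  have h2 : ∑ x ∈ X, (r x : ℝ) ^ 2 ≤ (planeEnergy A B : ℝ) := by
    have h5 : ∑ x ∈ X, r x ^ 2 ≤ planeEnergy A B := by
      have h6 : ∀ x ∈ X, r x ^ 2 = ((S.filter fun t => φ t = x) ×ˢ (S.filter fun t => φ t = x)).card := by
        intro x _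
        rw [card_product, sq, hr]
      rw [sum_congr rfl h6, ← card_biUnion]
      · refine card_le_card fun s hs => ?_
        rw [mem_biUnion] at hs
        obtain ⟨x, _, hx⟩ := hs
        have h7 := mem_product.1 hx
        have h8 := mem_filter.1 h7.1
        have h9 := mem_filter.1 h7.2
        have h10 : φ s.1 = φ s.2 := h8.2.trans h9.2.symm
        rw [hφ] at h10
        refine mem_filter.2 ⟨mem_product.2 ⟨hS ▸ h8.1, hS ▸ h9.1⟩, ?_, ?_⟩
        · exact (Prod.ext_iff.1 h10).1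
        · exact (Prod.ext_iff.1 h10).2
      · intro x _ y _ hxy
        rw [Function.onFun, disjoint_left]
        intro s h7 h8
        exact hxy ((mem_filter.1 (mem_product.1 h7).1).2.symm.trans (mem_filter.1 (mem_product.1 h8).1).2)
    exact_mod_cast h5
  have h3 : (∑ x ∈ X, (r x : ℝ)) ^ 2 ≤ X.card * ∑ x ∈ X, (r x : ℝ) ^ 2 := sq_sum_le_card_mul_sum_sq
  rw [h1]
  refine le_of_sq_le_sq ?_ (by positivity)
  calc (∑ x ∈ X, (r x : ℝ)) ^ 2 ≤ X.card * ∑ x ∈ X, (r x : ℝ) ^ 2 := h3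
    _ ≤ (p : ℝ) ^ (1 + ε) * ((p : ℝ) ^ (-1 - 3 * ε) * (A.card * (B.card : ℝ) ^ 2) ^ 2) :=
        mul_le_mul hX (h2.trans hE) (sum_nonneg fun _ _ => by positivity) (by positivity)
    _ = ((p : ℝ) ^ (-ε) * (A.card * (B.card : ℝ) ^ 2)) ^ 2 := by
        have e1 : ((p : ℝ) ^ (-ε)) ^ 2 = (p : ℝ) ^ (1 + ε + (-1 - 3 * ε)) := by
          rw [← Real.rpow_natCast, ← Real.rpow_mul hp0.le]
          congr 1
          push_cast
          ring
        rw [mul_pow ((p : ℝ) ^ (-ε)), e1, ← mul_assoc, ← Real.rpow_add hp0]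

/-- For every `ε > 0` there are `τ > 0` and `p₀` with the following property for all primes `p ≥ p₀` and all
nonprincipal characters `χ` modulo `p`. Let `D = ⊔ A i`, where `A i` is nearly invariant under the translations by an
arbitrary set `T i` with at least `p ^ ε` elements, let `B` be any set, and let `A i`, `B` satisfy `PlaneSpread` for all `i`
outside a set `E` with `∑ |A i| ≤ p ^ (- ε) |D|` (`PlaneSpread` holds if the energy `planeEnergy` is at most
`p ^ (-1 - 3 ε)` times `(|A| |B| ^ 2) ^ 2`).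

* For all `f`, `g` the sum of `f a * g b * χ (a + b)` over `D × B` is at most `p ^ (- τ) √(|D| |B|) ‖f‖ ‖g‖`.
* For all `A' ⊆ D` and `B' ⊆ B` with `|D| ≤ p ^ τ |A'|` and `|B| ≤ p ^ τ |B'|` the double sum of `χ (a + b)` over
  `A' × B'` is at most `p ^ (- τ) |A'| |B'|`. -/
theorem result (ε : ℝ) (hε : 0 < ε) : ∃ τ : ℝ, 0 < τ ∧ ∃ p₀ : ℕ,
    ∀ p : ℕ, p.Prime → p₀ ≤ p → ∀ χ : DirichletCharacter ℂ p, χ ≠ 1 →
    (∀ A B : Finset (ZMod p), (planeEnergy A B : ℝ) ≤ (p : ℝ) ^ (-1 - 3 * ε) * (A.card * (B.card : ℝ) ^ 2) ^ 2 →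
      PlaneSpread p ε A B) ∧
    ∀ (n : ℕ) (A T : Fin n → Finset (ZMod p)) (D B : Finset (ZMod p)) (E : Finset (Fin n)),
      (∀ i, NearlyInvariant p ε τ (A i) (T i)) → (∀ i j, i ≠ j → Disjoint (A i) (A j)) →
      D = Finset.univ.biUnion A → (∀ i, i ∉ E → PlaneSpread p ε (A i) B) →
      ∑ i ∈ E, ((A i).card : ℝ) ≤ (p : ℝ) ^ (-ε) * D.card →
      (∀ f g : ZMod p → ℂ, ‖∑ a ∈ D, ∑ b ∈ B, f a * g b * χ (a + b)‖ ≤
        (p : ℝ) ^ (-τ) * Real.sqrt (D.card * B.card) *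
          (Real.sqrt (∑ a ∈ D, ‖f a‖ ^ 2) * Real.sqrt (∑ b ∈ B, ‖g b‖ ^ 2))) ∧
      ∀ A' B' : Finset (ZMod p), A' ⊆ D → B' ⊆ B → (D.card : ℝ) ≤ (p : ℝ) ^ τ * A'.card →
        (B.card : ℝ) ≤ (p : ℝ) ^ τ * B'.card →
        ‖∑ a ∈ A', ∑ b ∈ B', χ (a + b)‖ ≤ (p : ℝ) ^ (-τ) * (A'.card * B'.card) := by
  classical
  obtain ⟨τ₀, hτ₀, p₁, h⟩ := Pool.Agent.Q40.PS.one_sq ε hε
  obtain ⟨σ, hσ⟩ : ∃ σ : ℝ, σ = min τ₀ ε := ⟨_, rfl⟩
  have hσ0 : 0 < σ := by rw [hσ]; exact lt_min hτ₀ hε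
  have hσ1 : σ ≤ τ₀ := by rw [hσ]; exact min_le_left _ _
  have hσ2 : σ ≤ ε := by rw [hσ]; exact min_le_right _ _
  obtain ⟨p₂, hp₂⟩ := Pool.Agent.TH7.PG.large 2 (σ / 2) (by positivity)
  obtain ⟨p₃, hp₃⟩ := Pool.Agent.TH7.PG.large 3 (σ / 4 / 12) (by positivity)
  refine ⟨σ / 64, by positivity, max p₁ (max p₂ p₃), ?_⟩
  intro p hpp hp χ hχ
  refine ⟨fun A B hE => spread_of_energy hpp.pos ε A B hE, ?_⟩
  intro n A T D B E hA hdisj hD hsp hE
  have hF : Fact p.Prime := ⟨hpp⟩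
  have hp1 : (1 : ℝ) < p := by exact_mod_cast hpp.one_lt
  have hpR : (1 : ℝ) ≤ p := hp1.le
  have hp0 : (0 : ℝ) < p := by linarith
  have h2p := hp₂ p (((le_max_left _ _).trans (le_max_right _ _)).trans hp)
  have h3p := hp₃ p (((le_max_right _ _).trans (le_max_right _ _)).trans hp)
  have hτ4 : (p : ℝ) ^ (σ / 64) ≤ (p : ℝ) ^ τ₀ := Real.rpow_le_rpow_of_exponent_le hpR (by linarith)
  have hdis : Set.PairwiseDisjoint (univ : Finset (Fin n)) A := fun i _ j _ hij => hdisj i j hij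
  have hDc : (D.card : ℝ) = ∑ i, ((A i).card : ℝ) := by
    rw [hD, card_biUnion fun i _ j _ hij => hdisj i j hij]
    push_cast
    rfl
  have hB0 : (0 : ℝ) ≤ (B.card : ℝ) ^ 2 := by positivity
  -- bounded weights
  have hlinf : ∀ f g : ZMod p → ℂ, (∀ x, ‖f x‖ ≤ 1) → (∀ x, ‖g x‖ ≤ 1) →
      ‖∑ a ∈ D, ∑ b ∈ B, f a * g b * χ (a + b)‖ ≤ (p : ℝ) ^ (-(σ / 4)) * (D.card * B.card) := by
    intro f g hf hg
    have htriv : ∀ a : ZMod p, ‖∑ b ∈ B, g b * χ (a + b)‖ ^ 2 ≤ (B.card : ℝ) ^ 2 := by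
      intro a
      refine pow_le_pow_left₀ (norm_nonneg _) ?_ 2
      refine (norm_sum_le _ _).trans ?_
      calc ∑ b ∈ B, ‖g b * χ (a + b)‖ ≤ ∑ _b ∈ B, (1 : ℝ) := by
            refine sum_le_sum fun b _ => ?_
            rw [norm_mul]
            exact mul_le_one₀ (hg b) (norm_nonneg _) (χ.norm_le_one _)
        _ = B.card := by simp
    have hpiece : ∀ i, ∑ a ∈ A i, ‖∑ b ∈ B, g b * χ (a + b)‖ ^ 2 ≤
        (p : ℝ) ^ (-σ) * ((A i).card * (B.card : ℝ) ^ 2) + if i ∈ E then ((A i).card : ℝ) * (B.card : ℝ) ^ 2 else 0 := by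
      intro i
      by_cases hi : i ∈ E
      · rw [if_pos hi]
        have h1 : ∑ a ∈ A i, ‖∑ b ∈ B, g b * χ (a + b)‖ ^ 2 ≤ ((A i).card : ℝ) * (B.card : ℝ) ^ 2 := by
          refine (sum_le_card_nsmul _ _ _ fun a _ => htriv a).trans ?_
          rw [nsmul_eq_mul]
        have h2 : 0 ≤ (p : ℝ) ^ (-σ) * (((A i).card : ℝ) * (B.card : ℝ) ^ 2) := by positivity
        linarith
      · rw [if_neg hi, add_zero]
        have h1 := h p ((le_max_left _ _).trans hp) χ hχ (A i) B (T i) (hA i).large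
          ((hA i).invariant.trans (mul_le_mul_of_nonneg_right hτ4 (Nat.cast_nonneg _)))
          (fun X hX => by convert hsp i hi X hX) g hg
        refine h1.trans (mul_le_mul_of_nonneg_right ?_ (by positivity))
        exact Real.rpow_le_rpow_of_exponent_le hpR (by linarith)
    have hsum : ∑ a ∈ D, ‖∑ b ∈ B, g b * χ (a + b)‖ ^ 2 ≤ 2 * (p : ℝ) ^ (-σ) * (D.card * (B.card : ℝ) ^ 2) := by
      rw [hD, sum_biUnion hdis, ← hD]
      refine (sum_le_sum fun i _ => hpiece i).trans ?_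
      rw [sum_add_distrib, ← mul_sum, ← sum_mul, ← hDc]
      have e1 : ∑ i, (if i ∈ E then ((A i).card : ℝ) * (B.card : ℝ) ^ 2 else 0) =
          (∑ i ∈ E, ((A i).card : ℝ)) * (B.card : ℝ) ^ 2 := by
        rw [← sum_filter, filter_mem_eq_inter, univ_inter, sum_mul]
      rw [e1]
      have h1 : (∑ i ∈ E, ((A i).card : ℝ)) * (B.card : ℝ) ^ 2 ≤ (p : ℝ) ^ (-σ) * D.card * (B.card : ℝ) ^ 2 := by
        refine mul_le_mul_of_nonneg_right (hE.trans (mul_le_mul_of_nonneg_right ?_ (Nat.cast_nonneg _))) hB0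
        exact Real.rpow_le_rpow_of_exponent_le hpR (by linarith)
      linarith
    have hcs : ‖∑ a ∈ D, ∑ b ∈ B, f a * g b * χ (a + b)‖ ^ 2 ≤
        D.card * ∑ a ∈ D, ‖∑ b ∈ B, g b * χ (a + b)‖ ^ 2 := by
      have h1 : ‖∑ a ∈ D, ∑ b ∈ B, f a * g b * χ (a + b)‖ ≤
          ∑ a ∈ D, ‖f a‖ * ‖∑ b ∈ B, g b * χ (a + b)‖ := by
        refine (norm_sum_le _ _).trans (Finset.sum_le_sum fun a _ => ?_)
        rw [← norm_mul, Finset.mul_sum]
        simp only [mul_assoc]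
        exact le_rfl
      have h2 := Finset.sum_mul_sq_le_sq_mul_sq D (fun a => ‖f a‖)
        (fun a => ‖∑ b ∈ B, g b * χ (a + b)‖)
      have h3 : ∑ a ∈ D, ‖f a‖ ^ 2 ≤ D.card := by
        calc ∑ a ∈ D, ‖f a‖ ^ 2 ≤ ∑ _a ∈ D, (1 : ℝ) :=
              Finset.sum_le_sum fun a _ => pow_le_one₀ (norm_nonneg _) (hf a)
          _ = D.card := by simp
      calc _ ≤ (∑ a ∈ D, ‖f a‖ * ‖∑ b ∈ B, g b * χ (a + b)‖) ^ 2 :=
            pow_le_pow_left₀ (norm_nonneg _) h1 2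
        _ ≤ _ := h2
        _ ≤ _ := mul_le_mul_of_nonneg_right h3 (Finset.sum_nonneg fun _ _ => by positivity)
    refine le_of_sq_le_sq ?_ (by positivity)
    calc ‖∑ a ∈ D, ∑ b ∈ B, f a * g b * χ (a + b)‖ ^ 2 ≤
        D.card * (2 * (p : ℝ) ^ (-σ) * (D.card * (B.card : ℝ) ^ 2)) :=
          hcs.trans (mul_le_mul_of_nonneg_left hsum (Nat.cast_nonneg _))
      _ = 2 * (p : ℝ) ^ (-σ) * ((D.card : ℝ) * B.card) ^ 2 := by ring
      _ ≤ (p : ℝ) ^ (σ / 2) * (p : ℝ) ^ (-σ) * ((D.card : ℝ) * B.card) ^ 2 := by gcongr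
      _ = ((p : ℝ) ^ (-(σ / 4)) * (D.card * B.card)) ^ 2 := by
          have e1 : ((p : ℝ) ^ (-(σ / 4))) ^ 2 = (p : ℝ) ^ (σ / 2) * (p : ℝ) ^ (-σ) := by
            rw [← Real.rpow_natCast, ← Real.rpow_mul hp0.le, ← Real.rpow_add hp0]
            congr 1
            push_cast
            ring
          rw [mul_pow ((p : ℝ) ^ (-(σ / 4))), e1]
  have hall : ∀ f g : ZMod p → ℂ, ‖∑ a ∈ D, ∑ b ∈ B, f a * g b * χ (a + b)‖ ≤
        (p : ℝ) ^ (-(σ / 16)) * Real.sqrt (D.card * B.card) *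
          (Real.sqrt (∑ a ∈ D, ‖f a‖ ^ 2) * Real.sqrt (∑ b ∈ B, ‖g b‖ ^ 2)) := by
    intro f g
    have h1 := Pool.Agent.TH7.PG.linf_to_l2_pow D B (fun a b => χ (a + b)) (fun a b => χ.norm_le_one _) p (σ / 4)
      hpR h3p hlinf f g
    have e1 : σ / 4 / 4 = σ / 16 := by ring
    rw [e1] at h1
    refine h1.trans (le_of_eq ?_)
    rw [Real.sqrt_mul (Nat.cast_nonneg _)]
    ring
  refine ⟨fun f g => ?_, fun A' B' hA' hB' hdA hdB => ?_⟩
  · refine (hall f g).trans (mul_le_mul_of_nonneg_right (mul_le_mul_of_nonneg_right ?_ (Real.sqrt_nonneg _))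
      (by positivity))
    exact Real.rpow_le_rpow_of_exponent_le hpR (by linarith)
  · have h1 := hall (fun a => if a ∈ A' then 1 else 0) (fun b => if b ∈ B' then 1 else 0)
    have e1 : ∑ a ∈ D, ∑ b ∈ B, (if a ∈ A' then (1 : ℂ) else 0) * (if b ∈ B' then (1 : ℂ) else 0) * χ (a + b) =
        ∑ a ∈ A', ∑ b ∈ B', χ (a + b) := by
      have h2 : ∀ a ∈ D, ∑ b ∈ B, (if a ∈ A' then (1 : ℂ) else 0) * (if b ∈ B' then (1 : ℂ) else 0) * χ (a + b) =
          if a ∈ A' then ∑ b ∈ B', χ (a + b) else 0 := by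
        intro a _
        by_cases ha : a ∈ A'
        · rw [if_pos ha, if_pos ha]
          simp only [one_mul, ite_mul, zero_mul]
          rw [← sum_filter, filter_mem_eq_inter, inter_eq_right.2 hB']
        · rw [if_neg ha, if_neg ha]
          simp
      rw [sum_congr rfl h2, ← sum_filter, filter_mem_eq_inter, inter_eq_right.2 hA']
    have e2 : ∀ (Y S : Finset (ZMod p)), S ⊆ Y → ∑ a ∈ Y, ‖(if a ∈ S then (1 : ℂ) else 0)‖ ^ 2 = (S.card : ℝ) := by
      intro Y S hS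
      have h2 : ∀ a ∈ Y, ‖(if a ∈ S then (1 : ℂ) else 0)‖ ^ 2 = if a ∈ S then (1 : ℝ) else 0 := by
        intro a _
        split_ifs <;> simp
      rw [sum_congr rfl h2, ← sum_filter, filter_mem_eq_inter, inter_eq_right.2 hS]
      simp
    rw [e1, e2 D A' hA', e2 B B' hB'] at h1
    refine h1.trans ?_
    have h3 : Real.sqrt (D.card * B.card) ≤ (p : ℝ) ^ (σ / 64) * Real.sqrt (A'.card * B'.card) := by
      have h4 : (D.card : ℝ) * B.card ≤ ((p : ℝ) ^ (σ / 64)) ^ 2 * (A'.card * B'.card) := by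
        calc (D.card : ℝ) * B.card ≤ ((p : ℝ) ^ (σ / 64) * A'.card) * ((p : ℝ) ^ (σ / 64) * B'.card) :=
              mul_le_mul hdA hdB (Nat.cast_nonneg _) (by positivity)
          _ = _ := by ring
      refine (Real.sqrt_le_sqrt h4).trans (le_of_eq ?_)
      rw [Real.sqrt_mul (by positivity), Real.sqrt_sq (by positivity)]
    have h5 : Real.sqrt (A'.card * B'.card) * (Real.sqrt A'.card * Real.sqrt B'.card) = (A'.card : ℝ) * B'.card := by
      rw [← Real.sqrt_mul (Nat.cast_nonneg _), Real.mul_self_sqrt (by positivity)]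
    calc (p : ℝ) ^ (-(σ / 16)) * Real.sqrt (D.card * B.card) * (Real.sqrt A'.card * Real.sqrt B'.card)
        ≤ (p : ℝ) ^ (-(σ / 16)) * ((p : ℝ) ^ (σ / 64) * Real.sqrt (A'.card * B'.card)) *
          (Real.sqrt A'.card * Real.sqrt B'.card) := by
          refine mul_le_mul_of_nonneg_right (mul_le_mul_of_nonneg_left h3 (by positivity)) (by positivity)
      _ = (p : ℝ) ^ (-(σ / 16)) * (p : ℝ) ^ (σ / 64) *
          (Real.sqrt (A'.card * B'.card) * (Real.sqrt A'.card * Real.sqrt B'.card)) := by ring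
      _ = (p : ℝ) ^ (-(σ / 16) + σ / 64) * ((A'.card : ℝ) * B'.card) := by rw [h5, Real.rpow_add hp0]
      _ ≤ (p : ℝ) ^ (-(σ / 64)) * ((A'.card : ℝ) * B'.card) :=
          mul_le_mul_of_nonneg_right (Real.rpow_le_rpow_of_exponent_le hpR (by linarith)) (by positivity)

end Pool.Agent.Results.MP_f6e9a2_nt.OneSidedArbitraryShifts
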