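import Pool.Agent.Q40.PS.Pairs

/-!
# Double character sums over unions of pieces nearly invariant under arbitrary small sets of translations

Let `D = ⊔ A i` and `D' = ⊔ B j` be disjoint unions of any numbers of sets. Each piece grows by a factor at most
`p ^ τ` when some set `T i`, respectively `T' j`, with at least `p ^ ε` elements is added; these sets are arbitrary (no
progressions, no condition on their doubling) and may be different for different pieces. If for most pairs of pieces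
the sums `a + b` are not concentrated on `p ^ (1 / 2 + ε)` residue classes, then the double sum of `χ (a + b)` over all
dense subsets of `D` and `D'` has a power saving.

Proof. In the form over `A i × B j` the variables are shifted by elements `t`, `t'` of subsets of `T i`, `T' j` with
`p ^ κ` elements. For a fixed pair of starting points with sum `w` the sum over `t` and `t'` is small by Cauchy-Schwarz
unless `|∑ χ (w + t₁' + t) conj χ (w + t₂' + t)|`, sum over `t`, is large for some `t₁' ≠ t₂'`. By the moment of order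
`2 k` (Weil's bound; in the diagonal terms each of the `2 k` shifts has a partner with difference `0` or
`± (t₁' - t₂')`) this happens only for `p ^ (1 / 2 + ε)` values of `w`. This is the argument of the starting files
`Pool.Agent.TH7.PG` for progressions, with arbitrary sets of shifts.
-/

set_option autoImplicit false

namespace Pool.Agent.Results.MP_f6e9a2_nt.ShiftsByArbitrarySets

open Finset
open scoped Pointwise

/-- `T` has at least `p ^ ε` elements and `|A + T| ≤ p ^ τ |A|` -/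
structure NearlyInvariant (p : ℕ) (ε τ : ℝ) (A T : Finset (ZMod p)) : Prop where
  large : (p : ℝ) ^ ε ≤ T.card
  invariant : ((A + T).card : ℝ) ≤ (p : ℝ) ^ τ * A.card

/-- No set of at most `p ^ (1 / 2 + ε)` elements contains more than `p ^ (- ε) |A| |B|` of the sums `a + b`,
`(a, b) ∈ A × B`. -/
def Spread (p : ℕ) (ε : ℝ) (A B : Finset (ZMod p)) : Prop :=
  ∀ X : Finset (ZMod p), (X.card : ℝ) ≤ (p : ℝ) ^ (1 / 2 + ε) →
    (((A ×ˢ B).filter fun t => t.1 + t.2 ∈ X).card : ℝ) ≤ (p : ℝ) ^ (-ε) * (A.card * B.card)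

/-- small additive energy implies that the sums are spread -/
theorem spread_of_energy {p : ℕ} (hp : 0 < p) (ε : ℝ) (A B : Finset (ZMod p))
    (hE : (Finset.addEnergy A B : ℝ) ≤ (p : ℝ) ^ (-(1 / 2) - 3 * ε) * (A.card * B.card) ^ 2) : Spread p ε A B := by
  classical
  intro X hX
  have hp0 : (0 : ℝ) < p := by exact_mod_cast hp
  set r : ZMod p → ℕ := fun x => ((A ×ˢ B).filter fun t => t.1 + t.2 = x).card with hr
  have h1 : (((A ×ˢ B).filter fun t => t.1 + t.2 ∈ X).card : ℝ) = ∑ x ∈ X, (r x : ℝ) := by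
    have h2 : ((A ×ˢ B).filter fun t => t.1 + t.2 ∈ X).card = ∑ x ∈ X, r x := by
      have h4 := Finset.card_eq_sum_card_fiberwise (s := (A ×ˢ B).filter fun t => t.1 + t.2 ∈ X)
        (f := fun t : ZMod p × ZMod p => t.1 + t.2) (t := X) (fun t ht => (mem_filter.1 (mem_coe.1 ht)).2)
      refine h4.trans (sum_congr rfl fun x hx => ?_)
      rw [hr]
      congr 1
      ext t
      simp only [mem_filter]
      constructor
      · rintro ⟨⟨h3, _⟩, h4⟩
        exact ⟨h3, h4⟩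
      · rintro ⟨h3, h4⟩
        exact ⟨⟨h3, h4 ▸ hx⟩, h4⟩
    rw [h2]
    push_cast
    rfl
  have h2 : ∑ x ∈ X, (r x : ℝ) ^ 2 ≤ (Finset.addEnergy A B : ℝ) := by
    rw [Finset.addEnergy_eq_sum_sq']
    push_cast
    have h3 : ∑ x ∈ X, (r x : ℝ) ^ 2 ≤ ∑ x ∈ X ∪ (A + B), (r x : ℝ) ^ 2 :=
      sum_le_sum_of_subset_of_nonneg subset_union_left fun _ _ _ => by positivity
    refine h3.trans (le_of_eq ?_)
    symm
    refine sum_subset subset_union_right fun x _ hx => ?_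
    have h4 : ((A ×ˢ B).filter fun t => t.1 + t.2 = x) = ∅ := by
      refine filter_eq_empty_iff.2 fun t ht h5 => hx ?_
      rw [← h5]
      exact add_mem_add (mem_product.1 ht).1 (mem_product.1 ht).2
    have h5 : r x = 0 := by
      rw [hr]
      show ((A ×ˢ B).filter fun t => t.1 + t.2 = x).card = 0
      rw [h4, card_empty]
    have h6 : (((A ×ˢ B).filter fun t => t.1 + t.2 = x).card : ℝ) = 0 := by exact_mod_cast h5
    rw [h6]
    norm_num
  have h3 : (∑ x ∈ X, (r x : ℝ)) ^ 2 ≤ X.card * ∑ x ∈ X, (r x : ℝ) ^ 2 := sq_sum_le_card_mul_sum_sq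
  rw [h1]
  refine le_of_sq_le_sq ?_ (by positivity)
  calc (∑ x ∈ X, (r x : ℝ)) ^ 2 ≤ X.card * ∑ x ∈ X, (r x : ℝ) ^ 2 := h3
    _ ≤ (p : ℝ) ^ (1 / 2 + ε) * ((p : ℝ) ^ (-(1 / 2) - 3 * ε) * (A.card * B.card) ^ 2) :=
        mul_le_mul hX (h2.trans hE) (sum_nonneg fun _ _ => by positivity) (by positivity)
    _ = ((p : ℝ) ^ (-ε) * (A.card * B.card)) ^ 2 := by
        have e1 : ((p : ℝ) ^ (-ε)) ^ 2 = (p : ℝ) ^ (1 / 2 + ε + (-(1 / 2) - 3 * ε)) := by
          rw [← Real.rpow_natCast, ← Real.rpow_mul hp0.le]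
          congr 1
          push_cast
          ring
        rw [mul_pow ((p : ℝ) ^ (-ε)), e1, ← mul_assoc, ← Real.rpow_add hp0]

/-- the trivial bound for a pair of pieces -/
lemma trivial_pair {p : ℕ} [Fact p.Prime] (χ : DirichletCharacter ℂ p) (A B : Finset (ZMod p)) (f g : ZMod p → ℂ) :
    ‖∑ a ∈ A, ∑ b ∈ B, f a * g b * χ (a + b)‖ ≤
      (Real.sqrt A.card * Real.sqrt B.card) * (Real.sqrt (∑ a ∈ A, ‖f a‖ ^ 2) * Real.sqrt (∑ b ∈ B, ‖g b‖ ^ 2)) := by
  have h0 : ∀ (X : Finset (ZMod p)) (F : ZMod p → ℂ), ∑ a ∈ X, ‖F a‖ ≤ Real.sqrt X.card * Real.sqrt (∑ a ∈ X, ‖F a‖ ^ 2) := by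
    intro X F
    rw [← Real.sqrt_mul (Nat.cast_nonneg _)]
    apply Real.le_sqrt_of_sq_le
    exact sq_sum_le_card_mul_sum_sq
  calc ‖∑ a ∈ A, ∑ b ∈ B, f a * g b * χ (a + b)‖ ≤ ∑ a ∈ A, ∑ b ∈ B, ‖f a‖ * ‖g b‖ := by
        refine (norm_sum_le _ _).trans (sum_le_sum fun a _ => (norm_sum_le _ _).trans (sum_le_sum fun b _ => ?_))
        rw [norm_mul, norm_mul]
        exact mul_le_of_le_one_right (by positivity) (χ.norm_le_one _)
    _ = (∑ a ∈ A, ‖f a‖) * ∑ b ∈ B, ‖g b‖ := by rw [sum_mul_sum]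
    _ ≤ (Real.sqrt A.card * Real.sqrt (∑ a ∈ A, ‖f a‖ ^ 2)) * (Real.sqrt B.card * Real.sqrt (∑ b ∈ B, ‖g b‖ ^ 2)) :=
        mul_le_mul (h0 A f) (h0 B g) (sum_nonneg fun _ _ => norm_nonneg _) (by positivity)
    _ = _ := by ring

/-- For every `ε > 0` there are `τ > 0` and `p₀` with the following property for all primes `p ≥ p₀` and all
nonprincipal characters `χ` modulo `p`. Let `D = ⊔ A i`, `D' = ⊔ B j`, where `A i`, `B j` are nearly invariant under the
translations by arbitrary sets `T i`, `T' j` with at least `p ^ ε` elements, and let the sums of `A i` and `B j` be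
spread for all `(i, j)` outside a set `E` of pairs with `∑ |A i| |B j| ≤ p ^ (- ε) |D| |D'|` (the sums of two sets are
spread if their additive energy is at most `p ^ (-1/2 - 3 ε)` times the maximal value).

* For all `f`, `g` the sum of `f a * g b * χ (a + b)` over `D × D'` is at most `p ^ (- τ) √(|D| |D'|) ‖f‖ ‖g‖`.
* For all `A' ⊆ D` and `B' ⊆ D'` with `|D| ≤ p ^ τ |A'|` and `|D'| ≤ p ^ τ |B'|` the double sum of `χ (a + b)` over
  `A' × B'` is at most `p ^ (- τ) |A'| |B'|`. -/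
theorem result (ε : ℝ) (hε : 0 < ε) : ∃ τ : ℝ, 0 < τ ∧ ∃ p₀ : ℕ,
    ∀ p : ℕ, p.Prime → p₀ ≤ p → ∀ χ : DirichletCharacter ℂ p, χ ≠ 1 →
    (∀ A B : Finset (ZMod p), (Finset.addEnergy A B : ℝ) ≤ (p : ℝ) ^ (-(1 / 2) - 3 * ε) * (A.card * B.card) ^ 2 →
      Spread p ε A B) ∧
    ∀ (n m : ℕ) (A T : Fin n → Finset (ZMod p)) (B T' : Fin m → Finset (ZMod p)) (D D' : Finset (ZMod p))
      (E : Finset (Fin n × Fin m)),
      (∀ i, NearlyInvariant p ε τ (A i) (T i)) → (∀ j, NearlyInvariant p ε τ (B j) (T' j)) →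
      (∀ i j, i ≠ j → Disjoint (A i) (A j)) → (∀ i j, i ≠ j → Disjoint (B i) (B j)) →
      D = Finset.univ.biUnion A → D' = Finset.univ.biUnion B →
      (∀ i j, (i, j) ∉ E → Spread p ε (A i) (B j)) →
      ∑ e ∈ E, ((A e.1).card : ℝ) * (B e.2).card ≤ (p : ℝ) ^ (-ε) * (D.card * D'.card) →
      (∀ f g : ZMod p → ℂ, ‖∑ a ∈ D, ∑ b ∈ D', f a * g b * χ (a + b)‖ ≤
        (p : ℝ) ^ (-τ) * Real.sqrt (D.card * D'.card) *
          (Real.sqrt (∑ a ∈ D, ‖f a‖ ^ 2) * Real.sqrt (∑ b ∈ D', ‖g b‖ ^ 2))) ∧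
      ∀ A' B' : Finset (ZMod p), A' ⊆ D → B' ⊆ D' → (D.card : ℝ) ≤ (p : ℝ) ^ τ * A'.card →
        (D'.card : ℝ) ≤ (p : ℝ) ^ τ * B'.card →
        ‖∑ a ∈ A', ∑ b ∈ B', χ (a + b)‖ ≤ (p : ℝ) ^ (-τ) * (A'.card * B'.card) := by
  classical
  obtain ⟨τ₀, hτ₀, p₀, h⟩ := Pool.Agent.Q40.PS.pairs ε hε
  obtain ⟨ϑ, hϑ⟩ : ∃ ϑ : ℝ, ϑ = ε := ⟨_, rfl⟩
  have hϑ0 : 0 < ϑ := hϑ ▸ hε
  obtain ⟨σ, hσ⟩ : ∃ σ : ℝ, σ = min τ₀ (ϑ / 2) := ⟨_, rfl⟩
  have hσ0 : 0 < σ := by rw [hσ]; exact lt_min hτ₀ (by positivity)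
  have hσ1 : σ ≤ τ₀ := by rw [hσ]; exact min_le_left _ _
  have hσ2 : σ ≤ ϑ / 2 := by rw [hσ]; exact min_le_right _ _
  refine ⟨σ / 8, by positivity, p₀ + ⌈(2 : ℝ) ^ (2 / σ)⌉₊ + 1, ?_⟩
  intro p hpp hp χ hχ
  refine ⟨fun A B hE => spread_of_energy hpp.pos ε A B hE, ?_⟩
  intro n m A P B Q D D' E hA hB hdisj hdisj' hD hD' hsp hE
  rw [← hϑ] at hE
  have hF : Fact p.Prime := ⟨hpp⟩
  have hp1 : (1 : ℝ) < p := by exact_mod_cast hpp.one_lt
  have hpR : (1 : ℝ) ≤ p := hp1.le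
  have hp0 : (0 : ℝ) < p := by linarith
  have h2p : (2 : ℝ) ≤ (p : ℝ) ^ (σ / 2) := by
    have h1 : (2 : ℝ) ^ (2 / σ) ≤ p := by
      refine (Nat.le_ceil _).trans ?_
      exact_mod_cast (by omega : ⌈(2 : ℝ) ^ (2 / σ)⌉₊ ≤ p)
    calc (2 : ℝ) = ((2 : ℝ) ^ (2 / σ)) ^ (σ / 2) := by
          rw [← Real.rpow_mul (by norm_num)]
          have : 2 / σ * (σ / 2) = 1 := by field_simp
          rw [this, Real.rpow_one]
      _ ≤ (p : ℝ) ^ (σ / 2) := Real.rpow_le_rpow (by positivity) h1 (by positivity)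
  have hτ4 : (p : ℝ) ^ (σ / 8) ≤ (p : ℝ) ^ τ₀ := Real.rpow_le_rpow_of_exponent_le hpR (by linarith)
  have hpair : ∀ i j, (i, j) ∉ E → ∀ f g : ZMod p → ℂ, ‖∑ a ∈ A i, ∑ b ∈ B j, f a * g b * χ (a + b)‖ ≤
      (p : ℝ) ^ (-σ) * ((Real.sqrt (A i).card * Real.sqrt (B j).card) *
        (Real.sqrt (∑ a ∈ A i, ‖f a‖ ^ 2) * Real.sqrt (∑ b ∈ B j, ‖g b‖ ^ 2))) := by
    intro i j hij f g
    refine (h p (by omega) χ hχ (A i) (B j) (P i) (Q j) (hA i).large (hB j).large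
      ((hA i).invariant.trans (mul_le_mul_of_nonneg_right hτ4 (Nat.cast_nonneg _)))
      ((hB j).invariant.trans (mul_le_mul_of_nonneg_right hτ4 (Nat.cast_nonneg _)))
      (fun X hX => by convert hsp i j hij X hX) f g).trans ?_
    exact mul_le_mul_of_nonneg_right (Real.rpow_le_rpow_of_exponent_le hpR (by linarith)) (by positivity)
  have hdis : Set.PairwiseDisjoint (univ : Finset (Fin n)) A := fun i _ j _ hij => hdisj i j hij
  have hdis' : Set.PairwiseDisjoint (univ : Finset (Fin m)) B := fun i _ j _ hij => hdisj' i j hij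
  have hD1 : ∀ F : ZMod p → ℝ, ∑ a ∈ D, F a = ∑ i, ∑ a ∈ A i, F a := fun F => by rw [hD, sum_biUnion hdis]
  have hD2 : ∀ F : ZMod p → ℂ, ∑ a ∈ D, F a = ∑ i, ∑ a ∈ A i, F a := fun F => by rw [hD, sum_biUnion hdis]
  have hD1' : ∀ F : ZMod p → ℝ, ∑ a ∈ D', F a = ∑ j, ∑ a ∈ B j, F a := fun F => by rw [hD', sum_biUnion hdis']
  have hD2' : ∀ F : ZMod p → ℂ, ∑ a ∈ D', F a = ∑ j, ∑ a ∈ B j, F a := fun F => by rw [hD', sum_biUnion hdis']
  have hcs : ∀ (k : ℕ) (X : Fin k → Finset (ZMod p)) (Y : Finset (ZMod p)),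
      (∀ F : ZMod p → ℝ, ∑ a ∈ Y, F a = ∑ i, ∑ a ∈ X i, F a) → ∀ F : ZMod p → ℂ,
      ∑ i, Real.sqrt (X i).card * Real.sqrt (∑ a ∈ X i, ‖F a‖ ^ 2) ≤
      Real.sqrt Y.card * Real.sqrt (∑ a ∈ Y, ‖F a‖ ^ 2) := by
    intro k X Y hY F
    have hYc : (Y.card : ℝ) = ∑ i, ((X i).card : ℝ) := by
      have h1 := hY fun _ => (1 : ℝ)
      simpa using h1
    rw [hYc, hY]
    exact Real.sum_sqrt_mul_sqrt_le _ (fun i => Nat.cast_nonneg _) (fun i => sum_nonneg fun _ _ => by positivity)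
  -- the form over all pairs of pieces
  have hall : ∀ f g : ZMod p → ℂ, ‖∑ a ∈ D, ∑ b ∈ D', f a * g b * χ (a + b)‖ ≤
        (p : ℝ) ^ (-(σ / 2)) * Real.sqrt (D.card * D'.card) *
          (Real.sqrt (∑ a ∈ D, ‖f a‖ ^ 2) * Real.sqrt (∑ b ∈ D', ‖g b‖ ^ 2)) := by
    intro f g
    obtain ⟨N, hN⟩ : ∃ N : ℝ, N = Real.sqrt (D.card * D'.card) *
        (Real.sqrt (∑ a ∈ D, ‖f a‖ ^ 2) * Real.sqrt (∑ b ∈ D', ‖g b‖ ^ 2)) := ⟨_, rfl⟩
    have hN0 : 0 ≤ N := by rw [hN]; positivity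
    obtain ⟨T, hT⟩ : ∃ T : Fin n → Fin m → ℝ, T = fun i j => (Real.sqrt (A i).card * Real.sqrt (B j).card) *
        (Real.sqrt (∑ a ∈ A i, ‖f a‖ ^ 2) * Real.sqrt (∑ b ∈ B j, ‖g b‖ ^ 2)) := ⟨_, rfl⟩
    have hT0 : ∀ i j, 0 ≤ T i j := fun i j => by rw [hT]; positivity
    have e1 : ∑ a ∈ D, ∑ b ∈ D', f a * g b * χ (a + b) = ∑ i, ∑ j, ∑ a ∈ A i, ∑ b ∈ B j, f a * g b * χ (a + b) := by
      rw [hD2]
      refine sum_congr rfl fun i _ => ?_
      symm
      rw [sum_comm]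
      refine sum_congr rfl fun a _ => ?_
      rw [hD2']
    have hpt : ∀ i j, ‖∑ a ∈ A i, ∑ b ∈ B j, f a * g b * χ (a + b)‖ ≤
        (p : ℝ) ^ (-σ) * T i j + if (i, j) ∈ E then T i j else 0 := by
      intro i j
      by_cases hij : (i, j) ∈ E
      · rw [if_pos hij]
        have h1 := trivial_pair χ (A i) (B j) f g
        have h2 : 0 ≤ (p : ℝ) ^ (-σ) * T i j := mul_nonneg (by positivity) (hT0 i j)
        have h3 : T i j = (Real.sqrt (A i).card * Real.sqrt (B j).card) *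
          (Real.sqrt (∑ a ∈ A i, ‖f a‖ ^ 2) * Real.sqrt (∑ b ∈ B j, ‖g b‖ ^ 2)) := by rw [hT]
        rw [← h3] at h1
        linarith
      · rw [if_neg hij, add_zero]
        have h1 := hpair i j hij f g
        rw [hT]
        exact h1
    have hmain : ∑ i, ∑ j, T i j ≤ N := by
      calc ∑ i, ∑ j, T i j = (∑ i, Real.sqrt (A i).card * Real.sqrt (∑ a ∈ A i, ‖f a‖ ^ 2)) *
            (∑ j, Real.sqrt (B j).card * Real.sqrt (∑ a ∈ B j, ‖g a‖ ^ 2)) := by
            rw [sum_mul_sum]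
            refine sum_congr rfl fun i _ => sum_congr rfl fun j _ => ?_
            rw [hT]
            ring
        _ ≤ (Real.sqrt D.card * Real.sqrt (∑ a ∈ D, ‖f a‖ ^ 2)) * (Real.sqrt D'.card * Real.sqrt (∑ a ∈ D', ‖g a‖ ^ 2)) :=
            mul_le_mul (hcs n A D hD1 f) (hcs m B D' hD1' g)
              (sum_nonneg fun _ _ => mul_nonneg (Real.sqrt_nonneg _) (Real.sqrt_nonneg _))
              (mul_nonneg (Real.sqrt_nonneg _) (Real.sqrt_nonneg _))
        _ = N := by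
            rw [hN, Real.sqrt_mul (Nat.cast_nonneg _)]
            ring
    have hexc : ∑ i, ∑ j, (if (i, j) ∈ E then T i j else 0) ≤ (p : ℝ) ^ (-(ϑ / 2)) * N := by
      have e2 : ∑ i, ∑ j, (if (i, j) ∈ E then T i j else 0) = ∑ e ∈ E, T e.1 e.2 := by
        rw [← Fintype.sum_prod_type' (f := fun i j => if (i, j) ∈ E then T i j else 0)]
        rw [← sum_filter]
        refine sum_congr ?_ fun _ _ => rfl
        ext e
        simp
      have e3 : ∀ e : Fin n × Fin m, T e.1 e.2 = Real.sqrt (((A e.1).card : ℝ) * (B e.2).card) *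
          Real.sqrt ((∑ a ∈ A e.1, ‖f a‖ ^ 2) * ∑ b ∈ B e.2, ‖g b‖ ^ 2) := by
        intro e
        rw [hT, Real.sqrt_mul (Nat.cast_nonneg _), Real.sqrt_mul (sum_nonneg fun _ _ => by positivity)]
      rw [e2]
      calc ∑ e ∈ E, T e.1 e.2 = ∑ e ∈ E, Real.sqrt (((A e.1).card : ℝ) * (B e.2).card) *
            Real.sqrt ((∑ a ∈ A e.1, ‖f a‖ ^ 2) * ∑ b ∈ B e.2, ‖g b‖ ^ 2) := sum_congr rfl fun e _ => e3 e
        _ ≤ Real.sqrt (∑ e ∈ E, ((A e.1).card : ℝ) * (B e.2).card) *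
            Real.sqrt (∑ e ∈ E, (∑ a ∈ A e.1, ‖f a‖ ^ 2) * ∑ b ∈ B e.2, ‖g b‖ ^ 2) :=
            Real.sum_sqrt_mul_sqrt_le _ (fun e => by positivity)
              (fun e => mul_nonneg (sum_nonneg fun _ _ => by positivity) (sum_nonneg fun _ _ => by positivity))
        _ ≤ Real.sqrt ((p : ℝ) ^ (-ϑ) * (D.card * D'.card)) *
            Real.sqrt ((∑ a ∈ D, ‖f a‖ ^ 2) * ∑ b ∈ D', ‖g b‖ ^ 2) := by
            refine mul_le_mul (Real.sqrt_le_sqrt hE) (Real.sqrt_le_sqrt ?_) (Real.sqrt_nonneg _) (Real.sqrt_nonneg _)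
            rw [hD1, hD1', sum_mul_sum]
            rw [← Fintype.sum_prod_type' (f := fun i j => (∑ a ∈ A i, ‖f a‖ ^ 2) * ∑ b ∈ B j, ‖g b‖ ^ 2)]
            exact sum_le_sum_of_subset_of_nonneg (subset_univ _) fun e _ _ =>
              mul_nonneg (sum_nonneg fun _ _ => by positivity) (sum_nonneg fun _ _ => by positivity)
        _ = (p : ℝ) ^ (-(ϑ / 2)) * N := by
            have e4 : Real.sqrt ((p : ℝ) ^ (-ϑ)) = (p : ℝ) ^ (-(ϑ / 2)) := by
              rw [Real.sqrt_eq_rpow, ← Real.rpow_mul hp0.le]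
              congr 1
              ring
            rw [Real.sqrt_mul (by positivity), e4, Real.sqrt_mul (sum_nonneg fun _ _ => by positivity), hN]
            ring
    rw [e1]
    calc ‖∑ i, ∑ j, ∑ a ∈ A i, ∑ b ∈ B j, f a * g b * χ (a + b)‖ ≤
          ∑ i, ∑ j, ‖∑ a ∈ A i, ∑ b ∈ B j, f a * g b * χ (a + b)‖ :=
          (norm_sum_le _ _).trans (sum_le_sum fun i _ => norm_sum_le _ _)
      _ ≤ ∑ i, ∑ j, ((p : ℝ) ^ (-σ) * T i j + if (i, j) ∈ E then T i j else 0) :=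
          sum_le_sum fun i _ => sum_le_sum fun j _ => hpt i j
      _ = (p : ℝ) ^ (-σ) * ∑ i, ∑ j, T i j + ∑ i, ∑ j, (if (i, j) ∈ E then T i j else 0) := by
          simp only [sum_add_distrib, mul_sum]
      _ ≤ (p : ℝ) ^ (-σ) * N + (p : ℝ) ^ (-σ) * N := by
          refine add_le_add (mul_le_mul_of_nonneg_left hmain (by positivity)) (hexc.trans ?_)
          exact mul_le_mul_of_nonneg_right (Real.rpow_le_rpow_of_exponent_le hpR (by linarith)) hN0
      _ = 2 * (p : ℝ) ^ (-σ) * N := by ring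
      _ ≤ (p : ℝ) ^ (σ / 2) * (p : ℝ) ^ (-σ) * N := by gcongr
      _ = (p : ℝ) ^ (-(σ / 2)) * N := by
          rw [← Real.rpow_add hp0]
          congr 2
          ring
      _ = _ := by rw [hN]; ring
  refine ⟨fun f g => ?_, fun A' B' hA' hB' hdA hdB => ?_⟩
  · refine (hall f g).trans (mul_le_mul_of_nonneg_right (mul_le_mul_of_nonneg_right ?_ (Real.sqrt_nonneg _))
      (by positivity))
    exact Real.rpow_le_rpow_of_exponent_le hpR (by linarith)
  · have h1 := hall (fun a => if a ∈ A' then 1 else 0) (fun b => if b ∈ B' then 1 else 0)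
    have e1 : ∑ a ∈ D, ∑ b ∈ D', (if a ∈ A' then (1 : ℂ) else 0) * (if b ∈ B' then (1 : ℂ) else 0) * χ (a + b) =
        ∑ a ∈ A', ∑ b ∈ B', χ (a + b) := by
      have h2 : ∀ a ∈ D, ∑ b ∈ D', (if a ∈ A' then (1 : ℂ) else 0) * (if b ∈ B' then (1 : ℂ) else 0) * χ (a + b) =
          if a ∈ A' then ∑ b ∈ B', χ (a + b) else 0 := by
        intro a _
        by_cases ha : a ∈ A'
        · rw [if_pos ha, if_pos ha]
          simp only [one_mul, ite_mul, zero_mul]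
          rw [← sum_filter, filter_mem_eq_inter, inter_eq_right.2 hB']
        · rw [if_neg ha, if_neg ha]
          simp
      rw [sum_congr rfl h2, ← sum_filter, filter_mem_eq_inter, inter_eq_right.2 hA']
    have e2 : ∀ (Y S : Finset (ZMod p)), S ⊆ Y → ∑ a ∈ Y, ‖(if a ∈ S then (1 : ℂ) else 0)‖ ^ 2 = (S.card : ℝ) := by
      intro Y S hS
      have h2 : ∀ a ∈ Y, ‖(if a ∈ S then (1 : ℂ) else 0)‖ ^ 2 = if a ∈ S then (1 : ℝ) else 0 := by
        intro a _
        split_ifs <;> simp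
      rw [sum_congr rfl h2, ← sum_filter, filter_mem_eq_inter, inter_eq_right.2 hS]
      simp
    rw [e1, e2 D A' hA', e2 D' B' hB'] at h1
    refine h1.trans ?_
    have h3 : Real.sqrt (D.card * D'.card) ≤ (p : ℝ) ^ (σ / 8) * Real.sqrt (A'.card * B'.card) := by
      have h4 : (D.card : ℝ) * D'.card ≤ ((p : ℝ) ^ (σ / 8)) ^ 2 * (A'.card * B'.card) := by
        calc (D.card : ℝ) * D'.card ≤ ((p : ℝ) ^ (σ / 8) * A'.card) * ((p : ℝ) ^ (σ / 8) * B'.card) :=
              mul_le_mul hdA hdB (Nat.cast_nonneg _) (by positivity)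
          _ = _ := by ring
      refine (Real.sqrt_le_sqrt h4).trans (le_of_eq ?_)
      rw [Real.sqrt_mul (by positivity), Real.sqrt_sq (by positivity)]
    have h5 : Real.sqrt (A'.card * B'.card) * (Real.sqrt A'.card * Real.sqrt B'.card) = (A'.card : ℝ) * B'.card := by
      rw [← Real.sqrt_mul (Nat.cast_nonneg _), Real.mul_self_sqrt (by positivity)]
    calc (p : ℝ) ^ (-(σ / 2)) * Real.sqrt (D.card * D'.card) * (Real.sqrt A'.card * Real.sqrt B'.card)
        ≤ (p : ℝ) ^ (-(σ / 2)) * ((p : ℝ) ^ (σ / 8) * Real.sqrt (A'.card * B'.card)) *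
          (Real.sqrt A'.card * Real.sqrt B'.card) := by
          refine mul_le_mul_of_nonneg_right (mul_le_mul_of_nonneg_left h3 (by positivity)) (by positivity)
      _ = (p : ℝ) ^ (-(σ / 2)) * (p : ℝ) ^ (σ / 8) *
          (Real.sqrt (A'.card * B'.card) * (Real.sqrt A'.card * Real.sqrt B'.card)) := by ring
      _ = (p : ℝ) ^ (-(σ / 2) + σ / 8) * ((A'.card : ℝ) * B'.card) := by rw [h5, Real.rpow_add hp0]
      _ ≤ (p : ℝ) ^ (-(σ / 8)) * ((A'.card : ℝ) * B'.card) :=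
          mul_le_mul_of_nonneg_right (Real.rpow_le_rpow_of_exponent_le hpR (by linarith)) (by positivity)

end Pool.Agent.Results.MP_f6e9a2_nt.ShiftsByArbitrarySets
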